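import Pool.Agent.W367.SN.Irr

set_option autoImplicit false
open CategoryTheory

namespace Pool.Agent.R677.Zeros
open Pool.Agent.W367.SN Pool.Agent.Helper199.RepDim

/-- The class sum operator is a scalar. -/
theorem classSum {G : Type} [Group G] [Fintype G] (V : FDRep ℂ G) (hV : Simple V) (x : G)
    (v : V) : (Module.finrank ℂ V : ℂ) • (∑ g : G, V.ρ (g * x * g⁻¹) v) =
      ((Fintype.card G : ℂ) * V.character x) • v := by
  classical
  let L : V →ₗ[ℂ] V := ∑ g : G, V.ρ (g * x * g⁻¹)
  have hL : ∀ u w, L (V.ρ u w) = V.ρ u (L w) := by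
    intro u w
    simp only [L, LinearMap.sum_apply, map_sum]
    rw [← Equiv.sum_comp (Equiv.mulLeft u)]
    apply Finset.sum_congr rfl
    intro g _
    change V.ρ (u * g * x * (u * g)⁻¹) (V.ρ u w) = V.ρ u (V.ρ (g * x * g⁻¹) w)
    rw [← Module.End.mul_apply, ← map_mul, ← Module.End.mul_apply, ← map_mul]
    congr 2
    group
  obtain ⟨c, hc⟩ := schur V hV L hL
  have htr : LinearMap.trace ℂ V L = (Fintype.card G : ℂ) * V.character x := by
    simp only [L, map_sum]
    have h1 : ∀ g, LinearMap.trace ℂ V (V.ρ (g * x * g⁻¹)) = V.character x := fun g =>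
      V.char_conj x g
    rw [Finset.sum_congr rfl (fun g _ => h1 g)]
    simp
  have hLc : L = c • LinearMap.id := LinearMap.ext hc
  rw [hLc, map_smul, LinearMap.trace_id, smul_eq_mul] at htr
  have h2 : ∑ g : G, V.ρ (g * x * g⁻¹) v = c • v := by
    rw [← hc v]
    simp only [L, LinearMap.sum_apply]
  rw [h2, smul_smul, ← htr, mul_comm c]

/-- A criterion for a character value to be nonzero. -/
theorem char_ne_zero {G : Type} [Group G] [Fintype G] (V : FDRep ℂ G) (hV : Simple V) (x : G)
    (v : V) (h : ∑ g : G, V.ρ (g * x * g⁻¹) v ≠ 0) : V.character x ≠ 0 := by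
  intro h0
  have h1 := classSum V hV x v
  rw [h0, mul_zero, zero_smul] at h1
  have hnt : Nontrivial V := by
    obtain ⟨w, hw⟩ := simple_nonzero V
    exact ⟨⟨w, 0, hw⟩⟩
  have h2 : (Module.finrank ℂ V : ℂ) ≠ 0 := by
    exact_mod_cast (Module.finrank_pos (R := ℂ) (M := V)).ne'
  exact h ((smul_eq_zero.1 h1).resolve_left h2)

/-- A commuting family of operators has a common eigenvector in a nonzero space. -/
theorem exists_char' {X : Type} [AddCommGroup X] [Module ℂ X] [FiniteDimensional ℂ X]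
    {A : Type} [CommGroup A] [Finite A] (r : A →* (X →ₗ[ℂ] X)) (hV : ∃ v : X, v ≠ 0) :
    ∃ ν : A →* ℂ, ∃ v : X, v ≠ 0 ∧ ∀ a, r a v = ν a • v := by
  classical
  have := Fintype.ofFinite A
  have key : ∀ S : Finset A, ∃ W : Submodule ℂ X, W ≠ ⊥ ∧ (∀ b, ∀ w ∈ W, r b w ∈ W) ∧
      ∀ a ∈ S, ∃ c : ℂ, ∀ w ∈ W, r a w = c • w := by
    intro S
    induction S using Finset.induction_on with
    | empty =>
      refine ⟨⊤, ?_, fun _ _ _ => trivial, by simp⟩
      obtain ⟨v, hv⟩ := hV
      intro h
      have : v ∈ (⊥ : Submodule ℂ X) := by rw [← h]; trivial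
      exact hv this
    | insert a S _ ih =>
      obtain ⟨W, hW0, hWi, hWS⟩ := ih
      obtain ⟨c, w, hw, hw0, hwc⟩ := exists_eig (r a) W (hWi a) hW0
      refine ⟨W ⊓ LinearMap.ker (r a - c • LinearMap.id), ?_, ?_, ?_⟩
      · intro h
        have : w ∈ W ⊓ LinearMap.ker (r a - c • LinearMap.id) :=
          ⟨hw, by rw [SetLike.mem_coe, LinearMap.mem_ker, LinearMap.sub_apply, LinearMap.smul_apply,
            LinearMap.id_apply, hwc, sub_self]⟩
        rw [h] at this
        exact hw0 this
      · rintro b v ⟨hv1, hv2⟩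
        refine ⟨hWi b v hv1, ?_⟩
        rw [SetLike.mem_coe, LinearMap.mem_ker, LinearMap.sub_apply, LinearMap.smul_apply,
          LinearMap.id_apply, sub_eq_zero] at hv2 ⊢
        rw [← Module.End.mul_apply, ← map_mul, mul_comm, map_mul,
          Module.End.mul_apply, hv2, map_smul]
      · intro x hx
        rw [Finset.mem_insert] at hx
        rcases hx with rfl | hx
        · refine ⟨c, ?_⟩
          rintro v ⟨_, hv2⟩
          rw [SetLike.mem_coe, LinearMap.mem_ker, LinearMap.sub_apply, LinearMap.smul_apply,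
            LinearMap.id_apply, sub_eq_zero] at hv2
          exact hv2
        · obtain ⟨d, hd⟩ := hWS x hx
          exact ⟨d, fun v hv => hd v hv.1⟩
  obtain ⟨W, hW0, _, hWS⟩ := key Finset.univ
  obtain ⟨v, hv, hv0⟩ := Submodule.exists_mem_ne_zero_of_ne_bot hW0
  choose c hc using fun a => hWS a (Finset.mem_univ a)
  have hc' : ∀ a, r a v = c a • v := fun a => hc a v hv
  refine ⟨⟨⟨c, ?_⟩, ?_⟩, v, hv0, hc'⟩
  · have h1 := hc' 1
    rw [map_one] at h1
    have h2 : (c 1 - 1) • v = 0 := by
      rw [sub_smul, ← h1, one_smul]; exact sub_self v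
    exact sub_eq_zero.1 ((smul_eq_zero.1 h2).resolve_right hv0)
  · intro a b
    have h1 := hc' (a * b)
    rw [map_mul, Module.End.mul_apply, hc' b, map_smul, hc' a, smul_smul] at h1
    have h2 : (c (a * b) - c a * c b) • v = 0 := by
      rw [sub_smul, ← h1, mul_comm]; exact sub_self _
    exact sub_eq_zero.1 ((smul_eq_zero.1 h2).resolve_right hv0)

end Pool.Agent.R677.Zeros
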