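import Pool.Agent.R677.Zeros.Grp

set_option autoImplicit false
open CategoryTheory

namespace Pool.Agent.R677.Zeros
open Pool.Agent.W367.SN Pool.Agent.Helper199.RepDim

noncomputable section

/-- an odd number of signs never sums to zero -/
theorem odd_sum_ne {ι : Type} [Fintype ι] (hι : Fintype.card ι = 7) (f : ι → ℂ)
    (hf : ∀ i, f i * f i = 1) : ∑ i, f i ≠ 0 := by
  classical
  have h1 : ∀ i, f i = 1 - 2 * (if f i = 1 then 0 else 1 : ℕ) := by
    intro i
    have : (f i - 1) * (f i + 1) = 0 := by linear_combination hf i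
    rcases mul_eq_zero.1 this with h | h
    · have h' : f i = 1 := by linear_combination h
      rw [if_pos h', h']; norm_num
    · have h' : f i = -1 := by linear_combination h
      have h'' : f i ≠ 1 := by rw [h']; norm_num
      rw [if_neg h'', h']; norm_num
  intro h0
  rw [Finset.sum_congr rfl (fun i _ => h1 i), Finset.sum_sub_distrib, ← Finset.mul_sum,
    ← Nat.cast_sum] at h0
  simp only [Finset.sum_const, Finset.card_univ, hι, nsmul_eq_mul, mul_one] at h0
  have h2 : ((7 : ℕ) : ℂ) = ((2 * ∑ i, (if f i = 1 then 0 else 1 : ℕ) : ℕ) : ℂ) := by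
    push_cast
    push_cast at h0
    linear_combination h0
  have h3 : 7 = 2 * ∑ i, (if f i = 1 then 0 else 1 : ℕ) := by exact_mod_cast h2
  omega

theorem card_units : Fintype.card Kˣ = 7 := by rw [Fintype.card_units, cardK]

theorem sum_hom_K (f : Multiplicative K →* ℂ) :
    (∑ t : K, f (Multiplicative.ofAdd t) = 0) ∨
      ((∀ t : K, f (Multiplicative.ofAdd t) = 1) ∧ ∑ t : K, f (Multiplicative.ofAdd t) = 8) := by
  by_cases hf : f = 1
  · right
    have h1 : ∀ t : K, f (Multiplicative.ofAdd t) = 1 := by intro t; rw [hf]; rfl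
    refine ⟨h1, ?_⟩
    rw [Finset.sum_congr rfl (fun t _ => h1 t)]
    simp [cardK]
  · left
    have := sum_hom_units_eq_zero f hf
    rw [← this]
    exact Equiv.sum_comp Multiplicative.ofAdd (fun t => f t)

/-- the twisted character `t ↦ l (t c² + c t²)` -/
def twist (l : Multiplicative K →* ℂ) (c : K) : Multiplicative K →* ℂ where
  toFun t := l (Multiplicative.ofAdd (t.toAdd * c ^ 2 + c * t.toAdd ^ 2))
  map_one' := by
    change l (Multiplicative.ofAdd ((0 : K) * c ^ 2 + c * (0 : K) ^ 2)) = 1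
    have : (0 : K) * c ^ 2 + c * (0 : K) ^ 2 = 0 := by ring
    rw [this]; exact map_one l
  map_mul' s t := by
    change l (Multiplicative.ofAdd ((s.toAdd + t.toAdd) * c ^ 2 + c * (s.toAdd + t.toAdd) ^ 2)) = _
    rw [← map_mul]
    congr 1
    change _ = Multiplicative.ofAdd ((s.toAdd * c ^ 2 + c * s.toAdd ^ 2) +
      (t.toAdd * c ^ 2 + c * t.toAdd ^ 2))
    congr 1
    linear_combination (c * s.toAdd * t.toAdd) * two_zero

/-- the sum of the twisted character -/
def S (l : Multiplicative K →* ℂ) (c : K) : ℂ :=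
  ∑ t : K, l (Multiplicative.ofAdd (t * c ^ 2 + c * t ^ 2))

theorem S_cases (l : Multiplicative K →* ℂ) (c : K) : S l c = 0 ∨ S l c = 8 := by
  rcases sum_hom_K (twist l c) with h | ⟨_, h⟩
  · left; exact h
  · right; exact h

theorem S_zero (l : Multiplicative K →* ℂ) : S l 0 = 8 := by
  have : ∀ t : K, l (Multiplicative.ofAdd (t * 0 ^ 2 + 0 * t ^ 2)) = 1 := by
    intro t
    have : t * 0 ^ 2 + 0 * t ^ 2 = (0 : K) := by ring
    rw [this]; exact map_one l
  rw [S, Finset.sum_congr rfl (fun t _ => this t)]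
  simp [cardK]

/-- cubing is a bijection of the units -/
def cubeEquiv : Kˣ ≃ Kˣ where
  toFun u := u ^ 3
  invFun u := u ^ 5
  left_inv u := by
    have := Gp.unit_pow_seven u
    change (u ^ 3) ^ 5 = u
    calc (u ^ 3) ^ 5 = (u ^ 7) ^ 2 * u := by group
      _ = u := by rw [this]; simp
  right_inv u := by
    have := Gp.unit_pow_seven u
    change (u ^ 5) ^ 3 = u
    calc (u ^ 5) ^ 3 = (u ^ 7) ^ 2 * u := by group
      _ = u := by rw [this]; simp

theorem sum_units (l : Multiplicative K →* ℂ) (hl : l ≠ 1) (z : K) :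
    ∑ u : Kˣ, l (Multiplicative.ofAdd ((u : K) * z)) = if z = 0 then 7 else -1 := by
  classical
  by_cases hz : z = 0
  · subst hz
    rw [if_pos rfl]
    have : ∀ u : Kˣ, l (Multiplicative.ofAdd ((u : K) * 0)) = 1 := by
      intro u; rw [mul_zero]; exact map_one l
    rw [Finset.sum_congr rfl (fun u _ => this u)]
    simp [card_units]
  · rw [if_neg hz]
    have h0 : ∑ t : K, l (Multiplicative.ofAdd t) = 0 := by
      rcases sum_hom_K l with h | ⟨h, _⟩
      · exact h
      · exfalso; apply hl; exact MonoidHom.ext (fun t => h (Multiplicative.toAdd t))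
    have h1 : ∑ t : K, l (Multiplicative.ofAdd (t * z)) = 0 := by
      rw [← h0]
      exact Equiv.sum_comp (Equiv.mulRight₀ z hz) (fun t => l (Multiplicative.ofAdd t))
    have h2 : ∑ t : K, l (Multiplicative.ofAdd (t * z)) =
        l (Multiplicative.ofAdd ((0 : K) * z)) + ∑ u : Kˣ, l (Multiplicative.ofAdd ((u : K) * z)) := by
      rw [← Finset.add_sum_erase Finset.univ _ (Finset.mem_univ (0 : K))]
      congr 1
      symm
      apply Finset.sum_bij (fun (u : Kˣ) _ => (u : K))
      · intro u _; simp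
      · intro u _ u' _ h; exact Units.ext h
      · intro t ht
        rw [Finset.mem_erase] at ht
        exact ⟨Units.mk0 t ht.1, Finset.mem_univ _, rfl⟩
      · intro u _; rfl
    rw [h1, zero_mul] at h2
    have h3 : l (Multiplicative.ofAdd (0 : K)) = 1 := map_one l
    rw [h3] at h2
    linear_combination -h2

theorem S_sum (l : Multiplicative K →* ℂ) (hl : l ≠ 1) (a : K) (ha : a ≠ 0) :
    ∑ u : Kˣ, S l ((u : K) * a) = 8 := by
  classical
  have h1 : ∀ u : Kˣ, S l ((u : K) * a) =
      ∑ s : K, l (Multiplicative.ofAdd (((u : K)) ^ 3 * (a ^ 3 * (s + s ^ 2)))) := by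
    intro u
    have hc : (u : K) * a ≠ 0 := mul_ne_zero u.ne_zero ha
    rw [S, ← Equiv.sum_comp (Equiv.mulLeft₀ ((u : K) * a) hc)]
    refine Finset.sum_congr rfl fun s _ => ?_
    congr 2
    change (u : K) * a * s * ((u : K) * a) ^ 2 + (u : K) * a * ((u : K) * a * s) ^ 2 = _
    ring
  rw [Finset.sum_congr rfl (fun u _ => h1 u), Finset.sum_comm]
  have h2 : ∀ s : K, ∑ u : Kˣ, l (Multiplicative.ofAdd (((u : K)) ^ 3 * (a ^ 3 * (s + s ^ 2)))) =
      if s = 0 ∨ s = 1 then 7 else -1 := by
    intro s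
    have h3 := sum_units l hl (a ^ 3 * (s + s ^ 2))
    rw [← Equiv.sum_comp cubeEquiv] at h3
    have h4 : ∀ u : Kˣ, ((cubeEquiv u : Kˣ) : K) = (u : K) ^ 3 := by
      intro u; change ((u ^ 3 : Kˣ) : K) = _; simp
    simp only [h4] at h3
    rw [h3]
    have h5 : a ^ 3 * (s + s ^ 2) = 0 ↔ s = 0 ∨ s = 1 := by
      constructor
      · intro h
        have h6 := (mul_eq_zero.1 h).resolve_left (pow_ne_zero 3 ha)
        have h7 : s * (s - 1) = 0 := by linear_combination h6 - s * two_zero
        rcases mul_eq_zero.1 h7 with h | h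
        · left; exact h
        · right; linear_combination h
      · rintro (rfl | rfl)
        · ring
        · have : (1 : K) + 1 ^ 2 = 0 := by linear_combination two_zero
          rw [this, mul_zero]
    by_cases hs : s = 0 ∨ s = 1
    · rw [if_pos hs, if_pos (h5.2 hs)]
    · rw [if_neg hs, if_neg (fun h => hs (h5.1 h))]
  rw [Finset.sum_congr rfl (fun s _ => h2 s)]
  have h6 : ∀ s : K, (if s = 0 ∨ s = 1 then (7 : ℂ) else -1) =
      -1 + (if s = 0 then 8 else 0) + (if s = 1 then 8 else 0) := by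
    intro s
    by_cases h0 : s = 0
    · subst h0; norm_num
    · by_cases h1 : s = 1
      · subst h1; norm_num
      · rw [if_neg (by tauto), if_neg h0, if_neg h1]; norm_num
  rw [Finset.sum_congr rfl (fun s _ => h6 s), Finset.sum_add_distrib, Finset.sum_add_distrib]
  simp [cardK]

theorem S_unique (l : Multiplicative K →* ℂ) (hl : l ≠ 1) (a : K) (ha : a ≠ 0) :
    ∃ u₀ : Kˣ, S l ((u₀ : K) * a) = 8 ∧ ∀ u : Kˣ, u ≠ u₀ → S l ((u : K) * a) = 0 := by
  classical
  have h := S_sum l hl a ha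
  have h1 : ∀ u : Kˣ, S l ((u : K) * a) = 8 * (if S l ((u : K) * a) = 8 then 1 else 0 : ℕ) := by
    intro u
    rcases S_cases l ((u : K) * a) with h0 | h0
    · rw [h0, if_neg (by norm_num)]; norm_num
    · rw [h0, if_pos rfl]; norm_num
  rw [Finset.sum_congr rfl (fun u _ => h1 u), ← Finset.mul_sum, ← Nat.cast_sum] at h
  have h2 : ((∑ u : Kˣ, (if S l ((u : K) * a) = 8 then 1 else 0 : ℕ) : ℕ) : ℂ) = ((1 : ℕ) : ℂ) := by
    push_cast
    push_cast at h
    linear_combination h / 8
  have h3 : ∑ u : Kˣ, (if S l ((u : K) * a) = 8 then 1 else 0 : ℕ) = 1 := by exact_mod_cast h2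
  rw [← Finset.card_filter, Finset.card_eq_one] at h3
  obtain ⟨u₀, hu₀⟩ := h3
  have h4 : ∀ u : Kˣ, S l ((u : K) * a) = 8 ↔ u = u₀ := by
    intro u
    have h5 : u ∈ Finset.univ.filter (fun u : Kˣ => S l ((u : K) * a) = 8) ↔ u ∈ ({u₀} : Finset Kˣ) := by
      rw [hu₀]
    simpa using h5
  refine ⟨u₀, (h4 u₀).2 rfl, fun u hu => ?_⟩
  rcases S_cases l ((u : K) * a) with h0 | h0
  · exact h0
  · exact absurd ((h4 u).1 h0) hu

variable {n : ℕ}

/-- the centre of the kernel -/
def nZ (n : ℕ) : Multiplicative (K × (Fin n → K)) →* Gp n where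
  toFun z := ⟨0, z.toAdd.1, z.toAdd.2, 1⟩
  map_one' := rfl
  map_mul' s t := by
    rw [Gp.mul_def]
    refine Gp.ext ?_ ?_ ?_ ?_
    · change (0 : K) = 0 + ((1 : Kˣ) : K) * 0
      ring
    · change s.toAdd.1 + t.toAdd.1 = s.toAdd.1 + ((1 : Kˣ) : K) ^ 3 * t.toAdd.1 +
        0 * (((1 : Kˣ) : K) * 0) ^ 2
      simp
    · change s.toAdd.2 + t.toAdd.2 = s.toAdd.2 + ((1 : Kˣ) : K) • t.toAdd.2
      simp
    · change (1 : Kˣ) = 1 * 1
      simp

theorem mul_ker (a b : K) (v : Fin n → K) (t : K) : (⟨a, b, v, 1⟩ : Gp n) * ⟨0, t, 0, 1⟩ =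
    ⟨a, b + t, v, 1⟩ := by
  rw [Gp.mul_def]
  refine Gp.ext ?_ ?_ ?_ ?_ <;> simp

theorem char_ne (V : FDRep ℂ (Gp n)) (hV : Simple V) (x : Gp n) (hx : x ∈ Gp.ker n) :
    V.character x ≠ 0 := by
  classical
  rcases x with ⟨a, b, v, u1⟩
  change u1 = 1 at hx
  subst hx
  obtain ⟨ν, w, hw, hν⟩ := exists_char V (simple_nonzero V) (nZ n)
  let l : Multiplicative K →* ℂ :=
    { toFun := fun t => ν (Multiplicative.ofAdd (t.toAdd, 0))
      map_one' := map_one ν
      map_mul' := fun s t => by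
        rw [← map_mul]
        exact congrArg ν (congrArg Multiplicative.ofAdd
          (Prod.ext rfl (add_zero (0 : Fin n → K)).symm)) }
  have hl : ∀ t : K, V.ρ (⟨0, t, 0, 1⟩ : Gp n) w = l (Multiplicative.ofAdd t) • w := fun t =>
    hν (Multiplicative.ofAdd (t, 0))
  by_cases hl1 : l = 1
  · -- the derived subgroup of the kernel acts trivially
    have htriv : ∀ (t : K) (y : V), V.ρ (⟨0, t, 0, 1⟩ : Gp n) y = y := by
      let W : Submodule ℂ V :=
        { carrier := {y | ∀ t : K, V.ρ (⟨0, t, 0, 1⟩ : Gp n) y = y}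
          add_mem' := fun {y z} hy hz t => by rw [map_add, hy t, hz t]
          zero_mem' := fun t => map_zero _
          smul_mem' := fun c y hy t => by rw [map_smul, hy t] }
      have hW : W = ⊤ := by
        apply simple_top V W
        · intro g y hy t
          have h1 : (⟨0, t, 0, 1⟩ : Gp n) * g = g * (g⁻¹ * ⟨0, t, 0, 1⟩ * g⁻¹⁻¹) := by group
          have h2 : g⁻¹ * (⟨0, t, 0, 1⟩ : Gp n) * g⁻¹⁻¹ =
              ⟨0, ((g⁻¹ : Gp n).u : K) ^ 3 * t, 0, 1⟩ := by
            rw [Gp.conj_formula, mul_ker]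
            refine Gp.ext ?_ ?_ ?_ ?_ <;> simp
          rw [← Module.End.mul_apply, ← map_mul, h1, h2, map_mul, Module.End.mul_apply]
          rw [hy]
        · intro h
          apply hw
          have : w ∈ W := by
            intro t
            rw [hl, hl1]
            change (1 : ℂ) • w = w
            rw [one_smul]
          rw [h] at this
          exact this
      intro t y
      have : y ∈ W := by rw [hW]; trivial
      exact this t
    let r : Multiplicative (K × (Fin n → K)) →* (V →ₗ[ℂ] V) :=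
      { toFun := fun z => V.ρ (⟨z.toAdd.1, 0, z.toAdd.2, 1⟩ : Gp n)
        map_one' := map_one V.ρ
        map_mul' := fun s t => by
          apply LinearMap.ext
          intro y
          have h1 : (⟨s.toAdd.1, 0, s.toAdd.2, 1⟩ : Gp n) * ⟨t.toAdd.1, 0, t.toAdd.2, 1⟩ =
              ⟨s.toAdd.1 + t.toAdd.1, 0, s.toAdd.2 + t.toAdd.2, 1⟩ *
                ⟨0, s.toAdd.1 * t.toAdd.1 ^ 2, 0, 1⟩ := by
            rw [mul_ker, Gp.mul_def]
            refine Gp.ext ?_ ?_ ?_ ?_ <;> simp
          have h2 : V.ρ ((⟨s.toAdd.1, 0, s.toAdd.2, 1⟩ : Gp n) * ⟨t.toAdd.1, 0, t.toAdd.2, 1⟩) y =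
              V.ρ (⟨s.toAdd.1 + t.toAdd.1, 0, s.toAdd.2 + t.toAdd.2, 1⟩ : Gp n) y := by
            rw [h1, map_mul, Module.End.mul_apply, htriv]
          rw [map_mul, Module.End.mul_apply] at h2
          exact h2.symm }
    obtain ⟨μ, y, hy, hμ⟩ := exists_char' (X := V) r (simple_nonzero V)
    apply char_ne_zero V hV _ y
    have h1 : ∀ g : Gp n, V.ρ (g * ⟨a, b, v, 1⟩ * g⁻¹) y =
        μ (Multiplicative.ofAdd ((g.u : K) * a, (g.u : K) • v)) • y := by
      intro g
      have h2 : (⟨(g.u : K) * a, (g.u : K) ^ 3 * b, (g.u : K) • v, 1⟩ : Gp n) =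
          ⟨(g.u : K) * a, 0, (g.u : K) • v, 1⟩ * ⟨0, (g.u : K) ^ 3 * b, 0, 1⟩ := by
        rw [mul_ker, zero_add]
      rw [Gp.conj_formula, map_mul, Module.End.mul_apply, htriv, h2, map_mul,
        Module.End.mul_apply, htriv]
      exact hμ (Multiplicative.ofAdd ((g.u : K) * a, (g.u : K) • v))
    rw [Finset.sum_congr rfl (fun g _ => h1 g), ← Finset.sum_smul, Gp.sum_eq]
    intro h0
    have h3 := (smul_eq_zero.1 h0).resolve_right hy
    simp only [Finset.sum_const, Finset.card_univ, nsmul_eq_mul] at h3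
    have h4 : ∑ u : Kˣ, μ (Multiplicative.ofAdd ((u : K) * a, (u : K) • v)) ≠ 0 := by
      apply odd_sum_ne card_units
      intro u
      rw [← map_mul]
      have : (Multiplicative.ofAdd ((u : K) * a, (u : K) • v)) *
          (Multiplicative.ofAdd ((u : K) * a, (u : K) • v)) = 1 := by
        change Multiplicative.ofAdd (((u : K) * a, (u : K) • v) + ((u : K) * a, (u : K) • v)) =
          Multiplicative.ofAdd 0
        congr 1
        refine Prod.ext ?_ ?_
        · exact add_self' _
        · change (u : K) • v + (u : K) • v = 0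
          rw [← two_smul K, two_zero, zero_smul]
      rw [this, map_one]
    have hc1 : (Fintype.card K : ℂ) ≠ 0 := by rw [cardK]; norm_num
    have hc2 : (Fintype.card (Fin n → K) : ℂ) ≠ 0 := by exact_mod_cast Fintype.card_ne_zero
    exact (mul_ne_zero hc1 (mul_ne_zero hc1 (mul_ne_zero hc2 h4))) h3
  · -- the derived subgroup of the kernel acts nontrivially
    apply char_ne_zero V hV _ w
    have h1 : ∀ g : Gp n, V.ρ (g * ⟨a, b, v, 1⟩ * g⁻¹) w =
        l (Multiplicative.ofAdd (g.a * ((g.u : K) * a) ^ 2 + ((g.u : K) * a) * g.a ^ 2)) •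
          V.ρ (⟨(g.u : K) * a, (g.u : K) ^ 3 * b, (g.u : K) • v, 1⟩ : Gp n) w := by
      intro g
      rw [Gp.conj_formula, map_mul, Module.End.mul_apply, hl, map_smul]
    rw [Finset.sum_congr rfl (fun g _ => h1 g), Gp.sum_eq]
    simp only [Finset.sum_const, Finset.card_univ]
    have h2 : ∀ u : Kˣ, ∑ a' : K, l (Multiplicative.ofAdd (a' * ((u : K) * a) ^ 2 +
        ((u : K) * a) * a' ^ 2)) • V.ρ (⟨(u : K) * a, (u : K) ^ 3 * b, (u : K) • v, 1⟩ : Gp n) w =
        S l ((u : K) * a) • V.ρ (⟨(u : K) * a, (u : K) ^ 3 * b, (u : K) • v, 1⟩ : Gp n) w := by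
      intro u
      rw [S, Finset.sum_smul]
    rw [← Finset.smul_sum, ← Finset.smul_sum, Finset.sum_comm, Finset.sum_congr rfl (fun u _ => h2 u)]
    have hc1 : Fintype.card K ≠ 0 := by rw [cardK]; norm_num
    have hc2 : Fintype.card (Fin n → K) ≠ 0 := Fintype.card_ne_zero
    have key : ∑ u : Kˣ, S l ((u : K) * a) •
        V.ρ (⟨(u : K) * a, (u : K) ^ 3 * b, (u : K) • v, 1⟩ : Gp n) w ≠ 0 := by
      by_cases ha : a = 0
      · subst ha
        have h3 : ∀ u : Kˣ, S l ((u : K) * 0) •
            V.ρ (⟨(u : K) * 0, (u : K) ^ 3 * b, (u : K) • v, 1⟩ : Gp n) w =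
            (8 * ν (Multiplicative.ofAdd ((u : K) ^ 3 * b, (u : K) • v))) • w := by
          intro u
          rw [mul_zero, S_zero, mul_smul]
          congr 1
          exact hν (Multiplicative.ofAdd ((u : K) ^ 3 * b, (u : K) • v))
        rw [Finset.sum_congr rfl (fun u _ => h3 u), ← Finset.sum_smul, ← Finset.mul_sum]
        intro h0
        have h4 := (smul_eq_zero.1 h0).resolve_right hw
        have h5 : ∑ u : Kˣ, ν (Multiplicative.ofAdd ((u : K) ^ 3 * b, (u : K) • v)) ≠ 0 := by
          apply odd_sum_ne card_units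
          intro u
          rw [← map_mul]
          have : (Multiplicative.ofAdd ((u : K) ^ 3 * b, (u : K) • v)) *
              (Multiplicative.ofAdd ((u : K) ^ 3 * b, (u : K) • v)) = 1 := by
            change Multiplicative.ofAdd (((u : K) ^ 3 * b, (u : K) • v) +
              ((u : K) ^ 3 * b, (u : K) • v)) = Multiplicative.ofAdd 0
            congr 1
            refine Prod.ext ?_ ?_
            · exact add_self' _
            · change (u : K) • v + (u : K) • v = 0
              rw [← two_smul K, two_zero, zero_smul]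
          rw [this, map_one]
        exact (mul_ne_zero (by norm_num) h5) h4
      · obtain ⟨u₀, hu₀, hu⟩ := S_unique l hl1 a ha
        rw [Finset.sum_eq_single u₀]
        · rw [hu₀]
          intro h0
          have h4 := (smul_eq_zero.1 h0).resolve_left (by norm_num)
          apply hw
          have h5 : V.ρ (⟨(u₀ : K) * a, (u₀ : K) ^ 3 * b, (u₀ : K) • v, 1⟩ : Gp n)⁻¹
              (V.ρ (⟨(u₀ : K) * a, (u₀ : K) ^ 3 * b, (u₀ : K) • v, 1⟩ : Gp n) w) = w := by
            rw [← Module.End.mul_apply, ← map_mul, inv_mul_cancel, map_one]; rfl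
          rw [h4, map_zero] at h5
          exact h5.symm
        · intro u _ hne
          rw [hu u hne, zero_smul]
        · intro h; exact absurd (Finset.mem_univ _) h
    intro h0
    rw [← Nat.cast_smul_eq_nsmul ℂ, ← Nat.cast_smul_eq_nsmul ℂ, smul_smul] at h0
    have hc1' : (Fintype.card K : ℂ) ≠ 0 := by exact_mod_cast hc1
    have hc2' : (Fintype.card (Fin n → K) : ℂ) ≠ 0 := by exact_mod_cast hc2
    exact key ((smul_eq_zero.1 h0).resolve_left (mul_ne_zero hc1' hc2'))

end

end Pool.Agent.R677.Zeros
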