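import Pool.Agent.R677.Zeros.Chr

set_option autoImplicit false
open CategoryTheory
open scoped commutatorElement

namespace Pool.Agent.R677.Zeros

noncomputable section

variable {n : ℕ}

/-- the commutator with an element outside the kernel -/
theorem comm_formula (c : K) (g : Gp n) :
    ⁅(⟨0, c, 0, 1⟩ : Gp n), g⁆ = ⟨0, (1 + (g.u : K) ^ 3) * c, 0, 1⟩ := by
  rw [commutatorElement_def, mul_inv_eq_iff_eq_mul, mul_inv_eq_iff_eq_mul]
  rcases g with ⟨a', b', v', u⟩
  simp only [Gp.mul_def]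
  refine Gp.ext ?_ ?_ ?_ ?_
  · simp
  · simp
    linear_combination (-((u : K) ^ 3 * c)) * two_zero
  · simp
  · simp

/-- every normal nilpotent subgroup lies in the kernel -/
theorem le_ker (N : Subgroup (Gp n)) (hN : N.Normal) (hnil : Group.IsNilpotent N) :
    N ≤ Gp.ker n := by
  intro g hg
  by_contra hgu
  have hu : g.u ≠ 1 := hgu
  have h0 : (1 : K) + (g.u : K) ^ 3 ≠ 0 := by
    intro h
    apply Gp.cube_ne g.u hu
    linear_combination h - two_zero
  have key : ∀ i : ℕ, (⟨0, (1 + (g.u : K) ^ 3) ^ (i + 1), 0, 1⟩ : Gp n) ∈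
      N.lowerCentralSeries i := by
    intro i
    induction i with
    | zero =>
      have h1 : ⁅(⟨0, 1, 0, 1⟩ : Gp n), g⁆ ∈ N :=
        N.mul_mem (hN.conj_mem g hg _) (N.inv_mem hg)
      rw [comm_formula, mul_one] at h1
      rw [zero_add, pow_one]
      exact h1
    | succ i ih =>
      have h2 := comm_formula ((1 + (g.u : K) ^ 3) ^ (i + 1)) g
      rw [← pow_succ'] at h2
      rw [Subgroup.lowerCentralSeries_succ, ← h2]
      exact Subgroup.commutator_mem_commutator ih hg
  obtain ⟨k, hk⟩ := (Subgroup.isNilpotent_iff_lowerCentralSeries N).1 hnil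
  have h1 := key k
  rw [hk, Subgroup.mem_bot] at h1
  have h2 : (1 + (g.u : K) ^ 3) ^ (k + 1) = 0 := congrArg Gp.b h1
  exact pow_ne_zero _ h0 h2

theorem exists_ne : ∃ t : K, t ≠ 0 ∧ t ≠ 1 := by
  classical
  have h : ({0, 1} : Finset K).card < Fintype.card K := by
    rw [cardK]
    exact lt_of_le_of_lt (Finset.card_le_two) (by norm_num)
  obtain ⟨t, ht⟩ := Finset.exists_mem_notMem_of_card_lt_card
    (s := ({0, 1} : Finset K)) (t := Finset.univ) (by rwa [Finset.card_univ])
  have h2 := ht.2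
  simp only [Finset.mem_insert, Finset.mem_singleton, not_or] at h2
  exact ⟨t, h2⟩

/-- the kernel is nonabelian -/
theorem ker_nonab : ∃ x ∈ Gp.ker n, ∃ y ∈ Gp.ker n, x * y ≠ y * x := by
  obtain ⟨t, h0, h1⟩ := exists_ne
  refine ⟨⟨1, 0, 0, 1⟩, rfl, ⟨t, 0, 0, 1⟩, rfl, ?_⟩
  intro h
  have h2 := congrArg Gp.b h
  rw [Gp.mul_def, Gp.mul_def] at h2
  simp at h2
  have h3 : t * (t - 1) = 0 := by linear_combination h2
  rcases mul_eq_zero.1 h3 with h | h
  · exact h0 h
  · apply h1; linear_combination h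

theorem card_Gp : 2 ^ n ≤ Nat.card (Gp n) := by
  classical
  rw [Nat.card_eq_fintype_card, Fintype.card_congr (Gp.equiv n), Fintype.card_prod,
    Fintype.card_prod, Fintype.card_prod, card_units, cardK, Fintype.card_fun, cardK,
    Fintype.card_fin]
  have h1 : (2 : ℕ) ^ n ≤ 8 ^ n := Nat.pow_le_pow_left (by norm_num) n
  calc 2 ^ n ≤ 8 ^ n := h1
    _ ≤ 8 * (8 * (8 ^ n * 7)) := by omega

theorem zeros_le (V : FDRep ℂ (Gp n)) (hV : Simple V) :
    {c : ConjClasses (Gp n) | ∀ g : Gp n, ConjClasses.mk g = c → V.character g = 0}.ncard ≤ 6 := by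
  classical
  have hsub : {c : ConjClasses (Gp n) | ∀ g : Gp n, ConjClasses.mk g = c → V.character g = 0} ⊆
      ((Finset.univ.erase (1 : Kˣ)).image
        (fun u => ConjClasses.mk (⟨0, 0, 0, u⟩ : Gp n)) : Finset (ConjClasses (Gp n))) := by
    intro c hc
    obtain ⟨g, rfl⟩ := ConjClasses.exists_rep c
    have hg : g.u ≠ 1 := by
      intro h
      exact char_ne V hV g h (hc g rfl)
    rw [Finset.coe_image]
    refine ⟨g.u, ?_, ?_⟩
    · simp [hg]
    · exact ConjClasses.mk_eq_mk_iff_isConj.2 (Gp.conj_out g hg)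
  refine (Set.ncard_le_ncard hsub (Finset.finite_toSet _)).trans ?_
  calc _ = _ := Set.ncard_coe_finset _
    _ ≤ (Finset.univ.erase (1 : Kˣ)).card := Finset.card_image_le
    _ = 6 := by rw [Finset.card_erase_of_mem (Finset.mem_univ _), Finset.card_univ, card_units]

end

end Pool.Agent.R677.Zeros
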