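import Pool.Agent.R677.Zeros.Base

set_option autoImplicit false

namespace Pool.Agent.R677.Zeros

noncomputable section

/-- the field with eight elements -/
abbrev K : Type := GaloisField 2 3

instance : Fintype K := Fintype.ofFinite K
instance : DecidableEq K := Classical.decEq K

theorem cardK : Fintype.card K = 8 := by
  rw [← Nat.card_eq_fintype_card, GaloisField.card 2 3 (by norm_num)]
  norm_num

theorem two_zero : (2 : K) = 0 := CharP.cast_eq_zero K 2

theorem add_self' (a : K) : a + a = 0 := by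
  rw [← two_mul, two_zero, zero_mul]

/-- a Frobenius group whose kernel is a nonabelian group of exponent four times an elementary
abelian group -/
@[ext]
structure Gp (n : ℕ) where
  a : K
  b : K
  v : Fin n → K
  u : Kˣ

namespace Gp

variable {n : ℕ}

instance : One (Gp n) := ⟨⟨0, 0, 0, 1⟩⟩
instance : Mul (Gp n) := ⟨fun x y => ⟨x.a + x.u * y.a,
  x.b + (x.u : K) ^ 3 * y.b + x.a * (x.u * y.a) ^ 2, x.v + (x.u : K) • y.v, x.u * y.u⟩⟩
instance : Inv (Gp n) := ⟨fun x => ⟨((x.u⁻¹ : Kˣ) : K) * x.a,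
  ((x.u⁻¹ : Kˣ) : K) ^ 3 * x.b + ((x.u⁻¹ : Kˣ) : K) ^ 3 * x.a ^ 3,
  ((x.u⁻¹ : Kˣ) : K) • x.v, x.u⁻¹⟩⟩

theorem one_def : (1 : Gp n) = ⟨0, 0, 0, 1⟩ := rfl
theorem mul_def (x y : Gp n) : x * y = ⟨x.a + x.u * y.a,
  x.b + (x.u : K) ^ 3 * y.b + x.a * (x.u * y.a) ^ 2, x.v + (x.u : K) • y.v, x.u * y.u⟩ := rfl
theorem inv_def (x : Gp n) : x⁻¹ = ⟨((x.u⁻¹ : Kˣ) : K) * x.a,
  ((x.u⁻¹ : Kˣ) : K) ^ 3 * x.b + ((x.u⁻¹ : Kˣ) : K) ^ 3 * x.a ^ 3,
  ((x.u⁻¹ : Kˣ) : K) • x.v, x.u⁻¹⟩ := rfl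

instance : Group (Gp n) :=
  Group.ofLeftAxioms
    (by
      rintro ⟨a, b, v, u⟩ ⟨a', b', v', u'⟩ ⟨a'', b'', v'', u''⟩
      simp only [mul_def, Units.val_mul]
      refine Gp.ext ?_ ?_ ?_ ?_
      · ring
      · linear_combination - ((u : K) ^ 2 * a * (a' * (u' * a''))) * two_zero
      · change v + (u : K) • v' + ((u : K) * u') • v'' = v + (u : K) • (v' + (u' : K) • v'')
        rw [smul_add, smul_smul, add_assoc]
      · exact mul_assoc _ _ _)
    (by
      rintro ⟨a, b, v, u⟩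
      simp [mul_def, one_def])
    (by
      rintro ⟨a, b, v, u⟩
      simp only [mul_def, one_def, inv_def]
      refine Gp.ext ?_ ?_ ?_ ?_
      · change _ = (0 : K); exact add_self' _
      · change _ = (0 : K)
        linear_combination (((u⁻¹ : Kˣ) : K) ^ 3 * b + ((u⁻¹ : Kˣ) : K) ^ 3 * a ^ 3) * two_zero
      · change ((u⁻¹ : Kˣ) : K) • v + ((u⁻¹ : Kˣ) : K) • v = 0
        rw [← two_smul K, two_zero, zero_smul]
      · change u⁻¹ * u = 1; exact inv_mul_cancel u)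

/-- the underlying product -/
def equiv (n : ℕ) : Gp n ≃ K × K × (Fin n → K) × Kˣ where
  toFun x := (x.a, x.b, x.v, x.u)
  invFun x := ⟨x.1, x.2.1, x.2.2.1, x.2.2.2⟩
  left_inv _ := rfl
  right_inv _ := rfl

instance : Fintype (Gp n) := Fintype.ofEquiv _ (equiv n).symm

theorem sum_eq {M : Type} [AddCommMonoid M] (F : Gp n → M) :
    ∑ g, F g = ∑ a, ∑ b, ∑ v, ∑ u, F ⟨a, b, v, u⟩ := by
  rw [← Equiv.sum_comp (equiv n).symm, Fintype.sum_prod_type]
  refine Finset.sum_congr rfl fun a _ => ?_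
  rw [Fintype.sum_prod_type]
  refine Finset.sum_congr rfl fun b _ => ?_
  rw [Fintype.sum_prod_type]
  rfl

/-- the kernel -/
def ker (n : ℕ) : Subgroup (Gp n) where
  carrier := {x | x.u = 1}
  one_mem' := rfl
  mul_mem' := by
    intro x y hx hy
    change x.u * y.u = 1
    change x.u = 1 at hx
    change y.u = 1 at hy
    rw [hx, hy, one_mul]
  inv_mem' := by
    intro x hx
    change x.u⁻¹ = 1
    change x.u = 1 at hx
    rw [hx, inv_one]

theorem mem_ker (x : Gp n) : x ∈ ker n ↔ x.u = 1 := Iff.rfl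

theorem ker_normal : (ker n).Normal := by
  constructor
  intro x hx g
  change g.u * x.u * g.u⁻¹ = 1
  change x.u = 1 at hx
  rw [hx, mul_one, mul_inv_cancel]

theorem conj_formula (a b : K) (v : Fin n → K) (g : Gp n) :
    g * ⟨a, b, v, 1⟩ * g⁻¹ = ⟨g.u * a, (g.u : K) ^ 3 * b, (g.u : K) • v, 1⟩ *
      ⟨0, g.a * (g.u * a) ^ 2 + (g.u * a) * g.a ^ 2, 0, 1⟩ := by
  rw [mul_inv_eq_iff_eq_mul]
  rcases g with ⟨a', b', v', u⟩
  simp only [mul_def]
  refine Gp.ext ?_ ?_ ?_ ?_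
  · change a' + u * a = (u * a + ((1 : Kˣ) : K) * 0) + ((1 * 1 : Kˣ) : K) * a'
    simp; ring
  · simp only [Units.val_one, one_mul, one_pow, mul_one, mul_zero, add_zero]
    simp
    linear_combination - ((u * a) * a' ^ 2) * two_zero
  · simp [add_comm]
  · simp

theorem sq_mem (x : Gp n) (hx : x ∈ ker n) : x ^ 4 = 1 := by
  rcases x with ⟨a, b, v, u⟩
  change u = 1 at hx
  subst hx
  have h1 : (⟨a, b, v, 1⟩ : Gp n) * ⟨a, b, v, 1⟩ = ⟨0, a ^ 3, 0, 1⟩ := by
    rw [mul_def]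
    refine Gp.ext ?_ ?_ ?_ ?_
    · simp [add_self']
    · simp
      linear_combination b * two_zero
    · simp
      rw [← two_smul K, two_zero, zero_smul]
    · simp
  have h2 : (⟨0, a ^ 3, 0, 1⟩ : Gp n) * ⟨0, a ^ 3, 0, 1⟩ = 1 := by
    rw [mul_def, one_def]
    refine Gp.ext ?_ ?_ ?_ ?_
    · simp
    · simp [add_self']
    · simp
    · simp
  calc (⟨a, b, v, 1⟩ : Gp n) ^ 4 = (⟨a, b, v, 1⟩ * ⟨a, b, v, 1⟩) * (⟨a, b, v, 1⟩ * ⟨a, b, v, 1⟩) := by
        rw [pow_succ, pow_succ, pow_two, mul_assoc]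
    _ = 1 := by rw [h1, h2]

theorem ker_nilpotent : Group.IsNilpotent (ker n) := by
  have h : IsPGroup 2 (ker n) := by
    intro x
    refine ⟨2, ?_⟩
    apply Subtype.ext
    have := sq_mem (x : Gp n) x.2
    simpa using this
  have : Fact (Nat.Prime 2) := ⟨Nat.prime_two⟩
  exact h.isNilpotent

theorem unit_pow_seven (u : Kˣ) : u ^ 7 = 1 := by
  have h : Fintype.card Kˣ = 7 := by rw [Fintype.card_units, cardK]
  rw [← h]; exact pow_card_eq_one

theorem cube_ne (u : Kˣ) (hu : u ≠ 1) : (u : K) ^ 3 ≠ 1 := by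
  intro h
  apply hu
  have h1 : u ^ 3 = 1 := Units.ext (by simpa using h)
  have h2 := unit_pow_seven u
  calc u = u ^ 7 * (u ^ 3)⁻¹ ^ 2 := by group
    _ = 1 := by rw [h1, h2]; simp

/-- elements outside the kernel are conjugate to complement elements -/
theorem conj_out (g : Gp n) (hg : g.u ≠ 1) : IsConj (⟨0, 0, 0, g.u⟩ : Gp n) g := by
  rcases g with ⟨a, b, v, u⟩
  change u ≠ 1 at hg
  have h1 : (1 : K) + u ≠ 0 := by
    intro h
    apply hg
    apply Units.ext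
    have : (u : K) = 1 := by linear_combination h - two_zero
    simpa using this
  have h3 : (1 : K) + (u : K) ^ 3 ≠ 0 := by
    intro h
    apply cube_ne u hg
    linear_combination h - two_zero
  rw [isConj_iff]
  set a' : K := a / (1 + u) with ha'
  set b' : K := (b + a * (u * a') ^ 2) / (1 + (u : K) ^ 3) with hb'
  have ea : a' * (1 + u) = a := div_mul_cancel₀ _ h1
  have eb : b' * (1 + (u : K) ^ 3) = b + a * (u * a') ^ 2 := div_mul_cancel₀ _ h3
  refine ⟨⟨a', b', ((1 : K) + u)⁻¹ • v, 1⟩, ?_⟩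
  change (⟨a', b', ((1 : K) + u)⁻¹ • v, 1⟩ : Gp n) * ⟨0, 0, 0, u⟩ *
    (⟨a', b', ((1 : K) + u)⁻¹ • v, 1⟩ : Gp n)⁻¹ = ⟨a, b, v, u⟩
  rw [mul_inv_eq_iff_eq_mul]
  simp only [mul_def]
  refine Gp.ext ?_ ?_ ?_ ?_
  · simp only [mul_zero, add_zero]
    linear_combination ea - ((u : K) * a') * two_zero
  · simp only [mul_zero, add_zero, Units.val_one, one_pow, ne_eq, OfNat.ofNat_ne_zero,
      not_false_eq_true, zero_pow]
    linear_combination eb - ((u : K) ^ 3 * b') * two_zero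
  · simp only [smul_zero, add_zero]
    have : v = ((1 : K) + u) • (((1 : K) + u)⁻¹ • v) := by rw [smul_smul, mul_inv_cancel₀ h1, one_smul]
    conv_rhs => rw [this]
    rw [smul_smul, smul_smul, smul_smul, ← add_smul]
    congr 1
    rw [mul_inv_cancel₀ h1]
    field_simp
    linear_combination (-1 : K) * (u : K) * two_zero
  · simp

end Gp

end

end Pool.Agent.R677.Zeros
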